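import Pool.Agent.Run7.h849.Fin

/-!
# The conjecture of Murasugi and Przytycki for diagrams made of even chains

All definitions are in `Pool.Agent.Run7.h849.Dfn`; the sliced oriented diagrams and their isotopy are
those of `Pool.Agent.Helper454.Wh.Defs`.
-/

set_option autoImplicit false

namespace Pool.Agent.Results.MP_9d4fac_gt.EvenChains

open Pool.Agent.Helper454.Wh (OClosed OIsotopic)
open Run7.h849

/-- Let `w` be a base diagram in which every chain has an even number of bands, and such that no
chain for which less than half of the bands have at least two crossings is a bridge of the graph of
the light chains. Then `expand w` is an alternating link diagram, and every closed braid which is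
isotopic to it has at least `s(D) - ind(D)` strands. -/
theorem result (w : List Bs) (hw : Wd 0 w) (ha : Allc w) (hb : NBr w) :
    OClosed (expand w) ∧ Alternating (expand w) ∧
      ∀ (m : ℕ) (α : List (ℕ × Bool)), BraidWord m α → OIsotopic (expand w) (clo m α) →
        seif (expand w) ≤ m + (sgr (expand w)).ind :=
  ⟨closed_expand hw ha, alternating_expand hw ha, fun _ _ hα hi => main hw ha hb hα hi⟩

end Pool.Agent.Results.MP_9d4fac_gt.EvenChains
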